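import Pool.Agent.Lib.MP_9f2731_nt.CG.Mv.All
import Pool.Agent.Lib.MP_9f2731_nt.CG.Mf.All
import Pool.Agent.Lib.MP_9f2731_nt.CG.Bq.All
import Pool.Agent.Lib.MP_9f2731_nt.CG.Tw.All
import Pool.Agent.Lib.MP_9f2731_nt.QL.Rw.All
import Pool.Agent.Lib.MP_9f2731_nt.GP.Dhj.All

/-!
MP_9f2731_nt, THEOREM CG (helper92, helper78, almost prime part: helper59): composition of the chapters.
-/

namespace Pool.Agent.Lib.MP_9f2731_nt.CG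

open Pool.Agent.Lib.MP_9f2731_nt.CG.Tw

theorem cgAll : CgrStmt ∧ Cg2Stmt := by
  have h : CgrStmt := Tw.twAll (QL.Rw.rwAll GP.Dhj.dhjAll) QL.Sw.swCor QL.Sw.swMom (Mf.mfAll Mv.mvAll) Bq.bqAll
  exact ⟨h, Tw.pFt3 h⟩

end Pool.Agent.Lib.MP_9f2731_nt.CG
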