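import Pool.Agent.Lib.MP_9f2731_nt.QL.Sw.Base

/-!
MP_9f2731_nt, directory CG (architect helper92): THEOREM CG, Cunningham grids (Maynard-Tao and Green-Tao together,
multiplicative). Definitions and interfaces of the chapters:
Ma : sieve sums with general weights (operators, elementary sums, mean values over intervals and over primes);
Mv : VarStmt (the variational problem);
Mf : MtStmt from Ma and Mv (Maynard-Tao uniformly in a smooth modulus, with roughness);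
Bq : BvqStmt (Bombieri-Vinogradov for the multiples of q, q <= exp((log X)^(1/200)) not divisible by p0);
Tr : RelWStmt → CorVStmt → MomVStmt → MtStmt → BvqStmt → CgxStmt → CgStmt.
-/

namespace Pool.Agent.Lib.MP_9f2731_nt.CG

open Finset
open Pool.Agent.Lib.MP_9f2731_nt.GP
open Pool.Agent.Lib.MP_9f2731_nt.QL

/-! ### Primes of the form q b + 1 -/

/-- the number of b ≤ X such that q b + 1 is prime -/
noncomputable def npq (X q : ℕ) : ℝ := (((Icc 1 X).filter (fun b => (q * b + 1).Prime)).card : ℝ)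

/-- the number of b ≤ X such that q b + 1 is prime and congruent to a modulo d -/
noncomputable def npa (X q d a : ℕ) : ℝ :=
  (((Icc 1 X).filter (fun b => (q * b + 1).Prime ∧ q * b + 1 ≡ a [MOD d])).card : ℝ)

/-- lower bound and Bombieri-Vinogradov theorem for the primes q b + 1 -/
def BvOK (X p0 q : ℕ) : Prop :=
  (1 / 4 : ℝ) * (((q : ℝ) / q.totient) * X / Real.log X) ≤ npq X q ∧
  ∀ a : ℕ → ℕ, (∀ d, (a d).Coprime d) →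
    ∑ d ∈ (Icc 1 ⌊(X : ℝ) ^ ((9 : ℝ) / 20)⌋₊).filter (fun d => d.Coprime (q * p0)),
      |npa X q d (a d) - npq X q / (d.totient : ℝ)| ≤
      X * Real.exp (-(Real.log X) ^ ((1 : ℝ) / 200))

/-- Bombieri-Vinogradov for the multiples of q -/
def BvqStmt : Prop :=
  ∃ ε1 : ℝ, 0 < ε1 ∧ ∀ w1 : ℕ, ∃ X0 : ℝ, ∀ X : ℕ, X0 ≤ X → ∃ p0 : ℕ, p0.Prime ∧ w1 < p0 ∧
    ∀ q : ℕ, 1 ≤ q → ¬ p0 ∣ q → Real.log q ≤ (Real.log X) ^ ε1 → BvOK X p0 q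

/-! ### The variational problem -/

/-- a profile: the function `t ↦ ∑ s, co s * 2 * (be s - t)_+` -/
structure Pf where
  co : Fin 3 → ℝ
  be : Fin 3 → ℝ

/-- `∫ (a - t)_+ (b - t)_+ dt` for a, b ≥ 0 -/
noncomputable def Ee (a b : ℝ) : ℝ := (min a b) ^ 2 * (3 * max a b - min a b) / 6

/-- scalar product of two profiles -/
noncomputable def ip (P Q : Pf) : ℝ := ∑ s, ∑ t, P.co s * Q.co t * (4 * Ee (P.be s) (Q.be t))

/-- integral of a profile -/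
noncomputable def im (P : Pf) : ℝ := ∑ s, P.co s * P.be s ^ 2

/-- size of a profile -/
noncomputable def Pf.M (P : Pf) : ℝ := ∑ s, |P.co s|

/-- the quadratic form I of the tensor sum over 𝒜 -/
noncomputable def Iq {K r : ℕ} (P : Fin r → Pf) (𝒜 : Finset (Fin K → Fin r)) : ℝ :=
  ∑ v ∈ 𝒜, ∑ u ∈ 𝒜, ∏ j, ip (P (v j)) (P (u j))

/-- the quadratic form J_l of the tensor sum over 𝒜 -/
noncomputable def Jq {K r : ℕ} (P : Fin r → Pf) (𝒜 : Finset (Fin K → Fin r)) (l : Fin K) : ℝ :=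
  ∑ v ∈ 𝒜, ∑ u ∈ 𝒜, im (P (v l)) * im (P (u l)) * ∏ j ∈ univ.erase l, ip (P (v j)) (P (u j))

/-- admissible data: all cutoff exponents of P a are in [0, bd a], and the tensors in 𝒜 live in the simplex -/
structure Vda {K r : ℕ} (P : Fin r → Pf) (bd : Fin r → ℝ) (𝒜 : Finset (Fin K → Fin r)) : Prop where
  hK : 1 ≤ K
  be : ∀ a s, 0 ≤ (P a).be s ∧ (P a).be s ≤ bd a
  one : ∀ a, bd a ≤ 1
  simp : ∀ v ∈ 𝒜, ∑ j, bd (v j) ≤ 1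
  pos : 0 < Iq P 𝒜

/-- the ratio of the quadratic forms is unbounded -/
def VarStmt : Prop :=
  ∀ Λ : ℝ, ∃ (K r : ℕ) (P : Fin r → Pf) (bd : Fin r → ℝ) (𝒜 : Finset (Fin K → Fin r)),
    Vda P bd 𝒜 ∧ Λ * Iq P 𝒜 ≤ ∑ l, Jq P 𝒜 l

/-- the ratio of the quadratic forms is unbounded, also with L - K additional coordinates -/
def VarLStmt : Prop :=
  ∀ Λ : ℝ, ∃ K : ℕ, 1 ≤ K ∧ ∀ L : ℕ, K ≤ L →
    ∃ (r : ℕ) (P : Fin r → Pf) (bd : Fin r → ℝ) (𝒜 : Finset (Fin L → Fin r)),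
      Vda P bd 𝒜 ∧ Λ * Iq P 𝒜 ≤ ∑ l ∈ univ.filter (fun l : Fin L => (l : ℕ) < K), Jq P 𝒜 l

/-! ### Maynard-Tao uniformly in a smooth modulus -/

/-- all prime factors of n are larger than z -/
def Rgh (z : ℝ) (n : ℕ) : Prop := ∀ p : ℕ, p.Prime → p ∣ n → z < (p : ℝ)

open Classical in
/-- MAYNARD-TAO, uniformly in V and s: m + 1 primes for the multipliers in 𝒢 (K elements), rough values for all
multipliers in ℋ (any finite set containing 𝒢). -/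
def MtStmt : Prop :=
  ∀ m : ℕ, ∃ K : ℕ, ∀ 𝒢 ℋ : Finset ℕ, 𝒢.card = K → 𝒢 ⊆ ℋ → (∀ g ∈ ℋ, 1 ≤ g) →
    ∃ (κ c : ℝ) (w1 : ℕ) (X0 : ℝ), 0 < κ ∧ 0 < c ∧ ∀ X V p0 s : ℕ, X0 ≤ X → p0.Prime → w1 < p0 →
    ¬ p0 ∣ V → 1 ≤ V →
    (∀ p : ℕ, p.Prime → (p : ℝ) ≤ (Real.log (Real.log X)) ^ 4 → p ≠ p0 → p ∣ V) → SmV V s →
    Real.log V + Real.log s ≤ (Real.log (Real.log X)) ^ 6 →
    (∀ g ∈ 𝒢, BvOK X p0 (V * (g * s))) →
    c * (((V : ℝ) / V.totient) / Real.log X) ^ ℋ.card * X ≤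
      (((Icc 1 X).filter (fun b => (∀ g ∈ ℋ, Rgh ((X : ℝ) ^ κ) (V * b * (g * s) + 1)) ∧
        m + 1 ≤ (𝒢.filter (fun g => (V * b * (g * s) + 1).Prime)).card)).card : ℝ)

/-! ### The theorem -/

/-- the grid of length k with ratio r, starting with n: primes for the multipliers in J, all prime factors larger
than z for the multipliers in ℋ -/
def Grd (J ℋ : Finset ℕ) (z : ℝ) (k r n : ℕ) : Prop :=
  ∀ i : ℕ, i < k → (∀ g ∈ J, (g * r ^ i * n + 1).Prime) ∧ ∀ g ∈ ℋ, Rgh z (g * r ^ i * n + 1)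

/-- THEOREM CG for one X: the set J may depend on X, k and ℋ -/
def CgxStmt : Prop :=
  ∀ m : ℕ, ∃ K : ℕ, ∀ 𝒢 ℋ : Finset ℕ, 𝒢.card = K → 𝒢 ⊆ ℋ → (∀ g ∈ ℋ, 1 ≤ g) → ∀ k : ℕ,
    ∃ c κ X0 : ℝ, 0 < c ∧ 0 < κ ∧ ∀ X : ℕ, X0 ≤ X → ∃ J : Finset ℕ, J ⊆ 𝒢 ∧ J.card = m + 1 ∧
      c * X ≤ (({b : ℕ | 1 ≤ b ∧ b ≤ X ∧ ∃ s r : ℕ, 1 ≤ s ∧ 2 ≤ r ∧
        (s : ℝ) ≤ Real.exp ((Real.log (Real.log X)) ^ 6) ∧
        (r : ℝ) ≤ Real.exp ((Real.log (Real.log X)) ^ 3) ∧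
        Grd J ℋ ((X : ℝ) ^ κ) k r (b * s)}.ncard : ℕ) : ℝ)

/-- THEOREM CG -/
def CgStmt : Prop :=
  ∀ m : ℕ, ∃ K : ℕ, ∀ 𝒢 : Finset ℕ, K ≤ 𝒢.card → (∀ g ∈ 𝒢, 1 ≤ g) →
    ∃ J : Finset ℕ, J ⊆ 𝒢 ∧ J.card = m + 1 ∧ ∀ k L : ℕ, ∃ (c : ℝ) (C : ℕ), 0 < c ∧
      ∀ X1 : ℕ, ∃ X : ℕ, X1 ≤ X ∧
      c * X ≤ (({b : ℕ | 1 ≤ b ∧ b ≤ X ∧ ∃ s r : ℕ, 1 ≤ s ∧ 2 ≤ r ∧
        (s : ℝ) ≤ Real.exp ((Real.log (Real.log X)) ^ 6) ∧
        (r : ℝ) ≤ Real.exp ((Real.log (Real.log X)) ^ 3) ∧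
        ∀ i : ℕ, i < k → (∀ g ∈ J, (g * r ^ i * (b * s) + 1).Prime) ∧
          ∀ h : ℕ, 1 ≤ h → h ≤ L → (h * r ^ i * (b * s) + 1).primeFactorsList.length ≤ C}.ncard : ℕ) : ℝ)

end Pool.Agent.Lib.MP_9f2731_nt.CG
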