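import Pool.Agent.Lib.MP_9f2731_nt.CG.Tw.SpecX

/-!
MP_9f2731_nt, THEOREM CG (helper92, helper78; almost prime part: helper59): the statement of the hand-in CunninghamGrids.
-/

namespace Pool.Agent.Lib.MP_9f2731_nt.CG

open Finset
open Pool.Agent.Lib.MP_9f2731_nt.CG.Tw

/-- the set of the b in the count -/
private def cgS (J : Finset ℕ) (L C k X : ℕ) : Set ℕ :=
  {b : ℕ | 1 ≤ b ∧ b ≤ X ∧ ∃ s r : ℕ, 1 ≤ s ∧ 2 ≤ r ∧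
    (s : ℝ) ≤ Real.exp (Real.log (Real.log X) ^ 6) ∧
    (r : ℝ) ≤ Real.exp (Real.log (Real.log X) ^ 3) ∧
    ∀ i : ℕ, i < k → (∀ g ∈ J, (g * r ^ i * (b * s) + 1).Prime) ∧
      ∀ h : ℕ, 1 ≤ h → h ≤ L → (h * r ^ i * (b * s) + 1).primeFactorsList.length ≤ C}

private theorem cg_fin (J : Finset ℕ) (L C k X : ℕ) : (cgS J L C k X).Finite :=
  (Set.finite_Icc 1 X).subset fun _ ha => ⟨ha.1, ha.2.1⟩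

private theorem cg_card {J : Finset ℕ} {L C C' k X : ℕ} (hC : C ≤ C') :
    (({b : ℕ | 1 ≤ b ∧ b ≤ X ∧ ∃ s r : ℕ, 1 ≤ s ∧ 2 ≤ r ∧
        (s : ℝ) ≤ Real.exp ((Real.log (Real.log X)) ^ 6) ∧
        (r : ℝ) ≤ Real.exp ((Real.log (Real.log X)) ^ 3) ∧ PrG J k r (b * s) ∧
          Apx L C k r (b * s)}.ncard : ℕ) : ℝ) ≤ (((cgS J L C' k X).ncard : ℕ) : ℝ) := by
  norm_cast
  refine Set.ncard_le_ncard ?_ (cg_fin J L C' k X)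
  rintro b ⟨h1, h2, s, r, hs, hr, hsX, hrX, hP, hA⟩
  exact ⟨h1, h2, s, r, hs, hr, hsX, hrX, fun i hi =>
    ⟨hP i hi, fun h hh hL => (hA i hi h hh hL).trans hC⟩⟩

open Classical in
private theorem cg_aux (h1 : CgrStmt) (m : ℕ) : ∃ K : ℕ, ∀ G : Finset ℕ, K ≤ G.card → (∀ g ∈ G, 1 ≤ g) →
    ∃ J : Finset ℕ, J ⊆ G ∧ J.card = m + 1 ∧ ∀ L : ℕ, ∃ C : ℕ, ∀ k : ℕ,
      ∃ (c X₀ : ℝ) (𝒥 : ℕ → Finset ℕ), 0 < c ∧ (∀ X : ℕ, 𝒥 X ⊆ G ∧ (𝒥 X).card = m + 1) ∧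
        (∀ X₁ : ℕ, ∃ X : ℕ, X₁ ≤ X ∧ 𝒥 X = J) ∧ ∀ X : ℕ, X₀ ≤ X →
          c * X ≤ (((cgS (𝒥 X) L C k X).ncard : ℕ) : ℝ) := by
  obtain ⟨K, hK⟩ := h1 m
  refine ⟨K, fun G hG hG1 => ?_⟩
  obtain ⟨hA, J, hJ, hJc, hJL⟩ := hK G hG hG1
  refine ⟨J, hJ, hJc, fun L => ?_⟩
  obtain ⟨C1, hC1⟩ := hA L
  obtain ⟨C2, hC2⟩ := hJL L
  refine ⟨max C1 C2, fun k => ?_⟩
  obtain ⟨c1, X₀, hc1, hX⟩ := hC1 k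
  obtain ⟨⟨c2, hc2, hX2⟩, -⟩ := hC2 k
  have hc : 0 < min c1 c2 := lt_min hc1 hc2
  have hmul1 : ∀ X : ℕ, min c1 c2 * X ≤ c1 * X := fun X =>
    mul_le_mul_of_nonneg_right (min_le_left _ _) (Nat.cast_nonneg X)
  have hmul2 : ∀ X : ℕ, min c1 c2 * X ≤ c2 * X := fun X =>
    mul_le_mul_of_nonneg_right (min_le_right _ _) (Nat.cast_nonneg X)
  have hex : ∀ X : ℕ, ∃ J' : Finset ℕ, (J' ⊆ G ∧ J'.card = m + 1) ∧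
      (min c1 c2 * X ≤ (((cgS J L (max C1 C2) k X).ncard : ℕ) : ℝ) → J' = J) ∧
      (X₀ ≤ X → min c1 c2 * X ≤ (((cgS J' L (max C1 C2) k X).ncard : ℕ) : ℝ)) := by
    intro X
    by_cases hJX : min c1 c2 * X ≤ (((cgS J L (max C1 C2) k X).ncard : ℕ) : ℝ)
    · exact ⟨J, ⟨hJ, hJc⟩, fun _ => rfl, fun _ => hJX⟩
    · by_cases hX0 : X₀ ≤ X
      · obtain ⟨J', h1', h2', h3'⟩ := hX X hX0
        exact ⟨J', ⟨h1', h2'⟩, fun h => absurd h hJX, fun _ =>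
          (hmul1 X).trans (h3'.trans (cg_card (le_max_left _ _)))⟩
      · exact ⟨J, ⟨hJ, hJc⟩, fun _ => rfl, fun h => absurd h hX0⟩
  choose 𝒥 h𝒥 h𝒥J h𝒥X using hex
  refine ⟨min c1 c2, X₀, 𝒥, hc, h𝒥, fun X₁ => ?_, h𝒥X⟩
  obtain ⟨X, hX1, hXc⟩ := hX2 X₁
  exact ⟨X, hX1, h𝒥J X ((hmul2 X).trans (hXc.trans (cg_card (le_max_right _ _))))⟩

theorem cg_handin (h1 : CgrStmt) :
    ∀ m : ℕ, ∃ K : ℕ, ∀ G : Finset ℕ, K ≤ G.card → (∀ g ∈ G, 1 ≤ g) →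
      ∃ J : Finset ℕ, J ⊆ G ∧ J.card = m + 1 ∧ ∀ L : ℕ, ∃ C : ℕ, ∀ k : ℕ,
        ∃ (c X₀ : ℝ) (𝒥 : ℕ → Finset ℕ), 0 < c ∧ (∀ X : ℕ, 𝒥 X ⊆ G ∧ (𝒥 X).card = m + 1) ∧
          (∀ X₁ : ℕ, ∃ X : ℕ, X₁ ≤ X ∧ 𝒥 X = J) ∧ ∀ X : ℕ, X₀ ≤ X →
            c * X ≤ (({b : ℕ | 1 ≤ b ∧ b ≤ X ∧ ∃ s r : ℕ, 1 ≤ s ∧ 2 ≤ r ∧
              (s : ℝ) ≤ Real.exp (Real.log (Real.log X) ^ 6) ∧
              (r : ℝ) ≤ Real.exp (Real.log (Real.log X) ^ 3) ∧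
              ∀ i : ℕ, i < k → (∀ g ∈ 𝒥 X, (g * r ^ i * (b * s) + 1).Prime) ∧
                ∀ h : ℕ, 1 ≤ h → h ≤ L →
                  (h * r ^ i * (b * s) + 1).primeFactorsList.length ≤ C}.ncard : ℕ) : ℝ) :=
  fun m => cg_aux h1 m

end Pool.Agent.Lib.MP_9f2731_nt.CG
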